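import Pool.Agent.Helper20.RL.St1

/-!
# Project RL, module LAN: counting
-/

set_option autoImplicit false

open MeasureTheory Set Filter Topology
open scoped ENNReal RealInnerProductSpace

namespace Pool.Agent.Helper98.RL

open Pool.Agent.Helper68.LM (Pl BB Bd Av HL ft fm DQ)
open Pool.Agent.Helper20.RG Pool.Agent.Helper20.RL

open Classical in
/-- many scales give a long chain -/
theorem an_chain (F : Set Pl) (U : ℤ → Set Pl) (Δ : ℕ) (z : Pl) (hz : z ∈ F) :
    ∀ (n : ℕ) (k : ℤ), n * Δ < ((Finset.Icc 0 k).filter (fun j => z ∈ U j)).card →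
      z ∈ Ch F U Δ (n + 1) k := by
  intro n
  induction n with
  | zero =>
    intro k hk
    rw [zero_mul, Finset.card_pos] at hk
    obtain ⟨j, hj⟩ := hk
    rw [Finset.mem_filter, Finset.mem_Icc] at hj
    exact ⟨hz, j, hj.1.2, hj.2, hz⟩
  | succ n ih =>
    intro k hk
    have hne : ((Finset.Icc 0 k).filter (fun j => z ∈ U j)).Nonempty := by
      rw [← Finset.card_pos]
      exact lt_of_le_of_lt (Nat.zero_le _) hk
    obtain ⟨k₁, hk₁⟩ : ∃ k₁, k₁ = ((Finset.Icc 0 k).filter (fun j => z ∈ U j)).max' hne := ⟨_, rfl⟩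
    have hmem : k₁ ∈ (Finset.Icc 0 k).filter (fun j => z ∈ U j) := by
      rw [hk₁]
      exact Finset.max'_mem _ _
    have hmax : ∀ j ∈ (Finset.Icc 0 k).filter (fun j => z ∈ U j), j ≤ k₁ := by
      intro j hj
      rw [hk₁]
      exact Finset.le_max' _ _ hj
    have hsub : (Finset.Icc 0 k).filter (fun j => z ∈ U j) ⊆
        (Finset.Icc 0 (k₁ - (Δ : ℤ))).filter (fun j => z ∈ U j) ∪ Finset.Ioc (k₁ - (Δ : ℤ)) k₁ := by
      intro j hj
      have h1 := hmax j hj
      rw [Finset.mem_filter, Finset.mem_Icc] at hj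
      rw [Finset.mem_union, Finset.mem_filter, Finset.mem_Icc, Finset.mem_Ioc]
      rcases le_or_gt j (k₁ - (Δ : ℤ)) with h | h
      · exact Or.inl ⟨⟨hj.1.1, h⟩, hj.2⟩
      · exact Or.inr ⟨h, h1⟩
    have hcard := (Finset.card_le_card hsub).trans (Finset.card_union_le _ _)
    have hIoc : (Finset.Ioc (k₁ - (Δ : ℤ)) k₁).card = Δ := by
      rw [Int.card_Ioc]
      simp
    rw [hIoc] at hcard
    have hk2 : n * Δ < ((Finset.Icc 0 (k₁ - (Δ : ℤ))).filter (fun j => z ∈ U j)).card := by
      have h3 : (n + 1) * Δ = n * Δ + Δ := by ring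
      omega
    rw [Finset.mem_filter, Finset.mem_Icc] at hmem
    exact ⟨hz, k₁, hmem.1.2, hmem.2, ih _ hk2⟩

open Classical in
/-- pointwise bound -/
theorem an_point (F : Set Pl) (U : ℤ → Set Pl) (Δ K n : ℕ) (z : Pl) (hz : z ∈ F)
    (h : z ∉ Ch F U Δ (n + 1) ((K : ℤ) - 1)) :
    ((Finset.range K).filter (fun k : ℕ => z ∈ U k)).card ≤ n * Δ := by
  by_contra hcon
  push Not at hcon
  apply h
  apply an_chain F U Δ z hz
  refine lt_of_lt_of_le hcon ?_
  apply Finset.card_le_card_of_injOn (fun k : ℕ => (k : ℤ))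
  · intro k hk
    have hk' := Finset.mem_filter.1 (Finset.mem_coe.1 hk)
    have h2 := Finset.mem_range.1 hk'.1
    apply Finset.mem_coe.2
    rw [Finset.mem_filter, Finset.mem_Icc]
    exact ⟨⟨by positivity, by simp only; omega⟩, hk'.2⟩
  · intro a _ b _ hab
    simpa using hab

open Classical in
theorem hLAN : StLAN := by
  intro F U Δ K n ρ hF hU _hΔ hCh hρ
  obtain ⟨W, hW⟩ : ∃ W : Set Pl, W = ⋃ k ∈ Ico (0 : ℤ) K, U k := ⟨_, rfl⟩
  rw [← hW] at hCh ⊢
  obtain ⟨N, hN⟩ : ∃ N : Pl → ℝ≥0∞, N = fun z => ∑ k ∈ Finset.range K, (U k).indicator 1 z := ⟨_, rfl⟩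
  have hNm : Measurable N := by
    rw [hN]
    exact Finset.measurable_fun_sum _ fun k _ => measurable_one.indicator (hU k)
  have hWm : MeasurableSet W := by
    rw [hW]
    exact MeasurableSet.biUnion (Set.to_countable _) fun k _ => hU k
  have hNcard : ∀ z, N z = (((Finset.range K).filter (fun k : ℕ => z ∈ U k)).card : ℝ≥0∞) := by
    intro z
    rw [hN]
    simp only [Set.indicator_apply, Pi.one_apply]
    rw [Finset.sum_ite, Finset.sum_const_zero, add_zero, Finset.sum_const, nsmul_eq_mul, mul_one]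
  obtain ⟨B, hB⟩ : ∃ B : Set Pl, B = {z | ((n * Δ : ℕ) : ℝ≥0∞) < N z} := ⟨_, rfl⟩
  have hBm : MeasurableSet B := by
    rw [hB]
    exact measurableSet_lt measurable_const hNm
  have hBC : B ∩ F ⊆ Ch F U Δ (n + 1) ((K : ℤ) - 1) := by
    rintro z ⟨hz, hzF⟩
    by_contra hcon
    have h1 := an_point F U Δ K n z hzF hcon
    rw [hB] at hz
    have hz' : ((n * Δ : ℕ) : ℝ≥0∞) < N z := hz
    rw [hNcard] at hz'
    have h2 : n * Δ < ((Finset.range K).filter (fun k : ℕ => z ∈ U k)).card := by
      exact_mod_cast hz'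
    omega
  have hsum : ∑ k ∈ Finset.range K, volume (F ∩ U k) = ∫⁻ z in F, N z := by
    have h1 : ∫⁻ z in F, N z = ∫⁻ z in F, ∑ k ∈ Finset.range K, (U (k : ℤ)).indicator 1 z := by
      rw [hN]
    have h2 : ∫⁻ z in F, ∑ k ∈ Finset.range K, (U (k : ℤ)).indicator 1 z =
        ∑ k ∈ Finset.range K, ∫⁻ z in F, (U (k : ℤ)).indicator 1 z :=
      lintegral_finsetSum (Finset.range K) (fun k _ => measurable_one.indicator (hU (k : ℤ)))
    rw [h1, h2]
    apply Finset.sum_congr rfl
    intro k _
    rw [lintegral_indicator_one (hU k), Measure.restrict_apply (hU k), inter_comm]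
  have hpt : ∀ z, N z ≤ ((n * Δ : ℕ) : ℝ≥0∞) * W.indicator 1 z + (K : ℝ≥0∞) * B.indicator 1 z := by
    intro z
    by_cases hz : z ∈ B
    · rw [Set.indicator_of_mem hz]
      refine le_trans ?_ le_add_self
      rw [Pi.one_apply, mul_one, hNcard]
      have : ((Finset.range K).filter (fun k : ℕ => z ∈ U k)).card ≤ K := by
        simpa using Finset.card_filter_le (Finset.range K) (fun k : ℕ => z ∈ U k)
      exact_mod_cast this
    · by_cases hzW : z ∈ W
      · rw [Set.indicator_of_mem hzW, Pi.one_apply, mul_one]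
        refine le_trans ?_ le_self_add
        rw [hB] at hz
        exact not_lt.1 hz
      · have : N z = 0 := by
          rw [hN]
          apply Finset.sum_eq_zero
          intro k hk
          apply Set.indicator_of_notMem
          intro hzk
          apply hzW
          rw [hW]
          refine mem_biUnion (x := (k : ℤ)) ?_ hzk
          have := Finset.mem_range.1 hk
          exact ⟨by positivity, by exact_mod_cast this⟩
        rw [this]
        exact zero_le
  rw [hsum]
  calc ∫⁻ z in F, N z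
      ≤ ∫⁻ z in F, (((n * Δ : ℕ) : ℝ≥0∞) * W.indicator 1 z + (K : ℝ≥0∞) * B.indicator 1 z) :=
        lintegral_mono hpt
    _ = ((n * Δ : ℕ) : ℝ≥0∞) * volume (W ∩ F) + (K : ℝ≥0∞) * volume (B ∩ F) := by
        rw [lintegral_add_left ((measurable_one.indicator hWm).const_mul _),
          lintegral_const_mul _ (measurable_one.indicator hWm),
          lintegral_const_mul _ (measurable_one.indicator hBm),
          lintegral_indicator_one hWm, lintegral_indicator_one hBm,
          Measure.restrict_apply hWm, Measure.restrict_apply hBm]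
    _ ≤ ((n * Δ : ℕ) : ℝ≥0∞) * volume (F ∩ W) + 1 * volume (F ∩ W) := by
        rw [inter_comm W F]
        refine add_le_add le_rfl ?_
        calc (K : ℝ≥0∞) * volume (B ∩ F) ≤ K * (ρ * volume (F ∩ W)) := by
              gcongr
              exact (measure_mono hBC).trans hCh
          _ = (ρ * K) * volume (F ∩ W) := by ring
          _ ≤ 1 * volume (F ∩ W) := by gcongr
    _ = ((n * Δ + 1 : ℕ) : ℝ≥0∞) * volume (F ∩ W) := by
        push_cast
        ring

end Pool.Agent.Helper98.RL
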